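import Pool.Agent.Helper42.CV.Defs

set_option autoImplicit false

namespace Pool.Agent.CV

open Polynomial

section Res64

variable {M K : Type*} [Field M] [Field K] [Algebra M K]

/-- `y` is regular at `t = 0` with value `a`. -/
private def Reg64 (t : K) (y : K) (a : M) : Prop :=
  ∃ A B : M[X], B.eval 0 ≠ 0 ∧ y * aeval t B = aeval t A ∧ A.eval 0 = a * B.eval 0

private theorem Reg64.add {t y z : K} {a b : M} (hy : Reg64 t y a) (hz : Reg64 t z b) : Reg64 t (y + z) (a + b) := by
  obtain ⟨A, B, hB, h1, h2⟩ := hy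
  obtain ⟨A', B', hB', h1', h2'⟩ := hz
  refine ⟨A * B' + A' * B, B * B', ?_, ?_, ?_⟩
  · rw [eval_mul]
    exact mul_ne_zero hB hB'
  · rw [map_mul, map_add, map_mul, map_mul, ← h1, ← h1']
    ring
  · rw [eval_add, eval_mul, eval_mul, eval_mul, h2, h2']
    ring

private theorem Reg64.cmul {t y : K} {a : M} (c : M) (hy : Reg64 t y a) : Reg64 t (algebraMap M K c * y) (c * a) := by
  obtain ⟨A, B, hB, h1, h2⟩ := hy
  refine ⟨C c * A, B, hB, ?_, ?_⟩
  · rw [map_mul, aeval_C, ← h1]
    ring
  · rw [eval_mul, eval_C, h2]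
    ring

private theorem Reg64.zero (t : K) : Reg64 (M := M) t 0 0 := ⟨0, 1, by simp, by simp, by simp⟩

private theorem Reg64.sum {t : K} {ι : Type*} (s : Finset ι) (y : ι → K) (a : ι → M) (h : ∀ i ∈ s, Reg64 t (y i) (a i)) :
    Reg64 t (∑ i ∈ s, y i) (∑ i ∈ s, a i) := by
  classical
  induction s using Finset.induction_on with
  | empty => simpa using Reg64.zero (M := M) t
  | insert i s hi ih =>
    rw [Finset.sum_insert hi, Finset.sum_insert hi]
    exact (h i (Finset.mem_insert_self _ _)).add (ih fun j hj => h j (Finset.mem_insert_of_mem hj))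

private theorem Reg64.eq_zero {t : K} (ht : Transcendental M t) {a : M} (h : Reg64 t 0 a) : a = 0 := by
  obtain ⟨A, B, hB, h1, h2⟩ := h
  rw [zero_mul] at h1
  have hA : A = 0 := (transcendental_iff.1 ht) A h1.symm
  rw [hA, eval_zero] at h2
  rcases mul_eq_zero.1 h2.symm with h | h
  · exact h
  · exact absurd h hB

private theorem Reg64.neg {t y : K} {a : M} (hy : Reg64 t y a) : Reg64 t (-y) (-a) := by
  have := hy.cmul (-1 : M)
  simpa using this

private theorem Reg64.uniq {t y : K} (ht : Transcendental M t) {a b : M} (h : Reg64 t y a) (h' : Reg64 t y b) : a = b := by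
  have := h.add h'.neg
  rw [add_neg_cancel] at this
  exact sub_eq_zero.1 (by simpa [sub_eq_add_neg] using this.eq_zero ht)

private theorem reg_poly64 {t : K} (ht : Transcendental M t) (D : Derivation M K K) (hD : D t = 1) (P : M[X]) (hP : P ≠ 0) :
    ∃ n : ℤ, Reg64 t (t * (D (aeval t P) / aeval t P)) (n : M) := by
  have ht0 : t ≠ 0 := by
    rintro rfl
    exact ht isAlgebraic_zero
  obtain ⟨P0, hP0, hnd⟩ := exists_eq_pow_rootMultiplicity_mul_and_not_dvd P hP 0
  generalize P.rootMultiplicity 0 = n at hP0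
  rw [C_0, sub_zero] at hP0 hnd
  have he0 : P0.eval 0 ≠ 0 := by
    intro h
    exact hnd (X_dvd_iff.2 (by rw [coeff_zero_eq_eval_zero]; exact h))
  have ha0 : aeval t P0 ≠ 0 := by
    intro h
    have := (transcendental_iff.1 ht) P0 h
    rw [this, eval_zero] at he0
    exact he0 rfl
  refine ⟨n, C (n : M) * P0 + X * derivative P0, P0, he0, ?_, ?_⟩
  · have h1 : D (aeval t P) = aeval t (derivative P) := by
      rw [Derivation.map_aeval, hD, smul_eq_mul, mul_one]
    have h2 : t * aeval t (derivative P) = t ^ n * aeval t (C (n : M) * P0 + X * derivative P0) := by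
      rw [hP0, derivative_mul, derivative_X_pow]
      simp only [map_add, map_mul, map_pow, aeval_X, aeval_C]
      rcases Nat.eq_zero_or_pos n with h0 | h0
      · rw [h0]
        simp
      · obtain ⟨m, rfl⟩ : ∃ m, n = m + 1 := ⟨n - 1, by omega⟩
        simp only [Nat.add_sub_cancel]
        ring
    have h3 : aeval t P = t ^ n * aeval t P0 := by
      conv_lhs => rw [hP0]
      simp
    rw [h1, mul_div_assoc', h2, h3]
    field_simp
  · rw [eval_add, eval_mul, eval_mul, eval_C, eval_X, zero_mul, add_zero, Int.cast_natCast]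

private theorem log_div64 (D : Derivation M K K) (x y : K) (hx : x ≠ 0) (hy : y ≠ 0) :
    D (x / y) / (x / y) = D x / x - D y / y := by
  rw [Derivation.leibniz_div]
  simp only [smul_eq_mul]
  field_simp

private theorem reg_all64 {t : K} (ht : Transcendental M t) (htop : IntermediateField.adjoin M {t} = ⊤) (D : Derivation M K K)
    (hD : D t = 1) (x : K) (hx : x ≠ 0) : ∃ n : ℤ, Reg64 t (t * (D x / x)) (n : M) := by
  have hmem : x ∈ IntermediateField.adjoin M {t} := by
    rw [htop]
    exact IntermediateField.mem_top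
  obtain ⟨P, Q, rfl⟩ := (IntermediateField.mem_adjoin_simple_iff M x).1 hmem
  have hP : aeval t P ≠ 0 := by
    intro h
    rw [h, zero_div] at hx
    exact hx rfl
  have hQ : aeval t Q ≠ 0 := by
    intro h
    rw [h, div_zero] at hx
    exact hx rfl
  obtain ⟨a, ha⟩ := reg_poly64 ht D hD P (by rintro rfl; exact hP (by simp))
  obtain ⟨b, hb⟩ := reg_poly64 ht D hD Q (by rintro rfl; exact hQ (by simp))
  refine ⟨a - b, ?_⟩
  have h := ha.add hb.neg
  rw [log_div64 D _ _ hP hQ]
  have e1 : t * (D (aeval t P) / aeval t P - D (aeval t Q) / aeval t Q) =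
      t * (D (aeval t P) / aeval t P) + -(t * (D (aeval t Q) / aeval t Q)) := by ring
  rw [e1, Int.cast_sub, sub_eq_add_neg]
  exact h

end Res64

theorem res_zero {M K : Type*} [Field M] [CharZero M] [Field K] [Algebra M K] (t : K) (ht : Transcendental M t)
    (htop : IntermediateField.adjoin M {t} = ⊤) (D : Derivation M K K) (hD : D t = 1) {g : ℕ} (c : Fin (g + 1) → M)
    (hc : LinearIndependent ℚ c) (f : Fin (g + 1) → K) (hf : ∀ j, f j ≠ 0) (e : ℕ) (he : 0 < e) (hf0 : f 0 = t ^ e) :
    ∑ j, algebraMap M K (c j) * (D (f j) / f j) ≠ 0 := by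
  intro hsum
  have ht0 : t ≠ 0 := by
    rintro rfl
    exact ht isAlgebraic_zero
  choose n hn using fun j => reg_all64 ht htop D hD (f j) (hf j)
  have h1 : Reg64 t (∑ j, algebraMap M K (c j) * (t * (D (f j) / f j))) (∑ j, c j * (n j : M)) :=
    Reg64.sum _ _ _ fun j _ => (hn j).cmul (c j)
  have h2 : ∑ j, algebraMap M K (c j) * (t * (D (f j) / f j)) = 0 := by
    have : ∑ j, algebraMap M K (c j) * (t * (D (f j) / f j)) = t * ∑ j, algebraMap M K (c j) * (D (f j) / f j) := by
      rw [Finset.mul_sum]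
      exact Finset.sum_congr rfl fun j _ => by ring
    rw [this, hsum, mul_zero]
  rw [h2] at h1
  have h3 := h1.eq_zero ht
  have h4 : ∑ j, (n j : ℚ) • c j = 0 := by
    rw [← h3]
    refine Finset.sum_congr rfl fun j _ => ?_
    rw [Algebra.smul_def, mul_comm]
    simp
  have h5 := Fintype.linearIndependent_iff.1 hc (fun j => (n j : ℚ)) h4 0
  have h6 : n 0 = 0 := by exact_mod_cast h5
  have h7 : Reg64 (M := M) t (t * (D (f 0) / f 0)) (e : M) := by
    have : t * (D (f 0) / f 0) = algebraMap M K (e : M) := by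
      rw [hf0, Derivation.leibniz_pow, hD]
      obtain ⟨m, rfl⟩ : ∃ m, e = m + 1 := ⟨e - 1, by omega⟩
      simp only [Nat.add_sub_cancel, smul_eq_mul, mul_one, nsmul_eq_mul, map_natCast]
      field_simp
      ring
    rw [this]
    exact ⟨C (e : M), 1, by simp, by simp, by simp⟩
  have h8 := (hn 0).uniq ht h7
  rw [h6, Int.cast_zero] at h8
  have : (e : M) ≠ 0 := Nat.cast_ne_zero.2 he.ne'
  exact this h8.symm

end Pool.Agent.CV

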