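import Pool.Agent.Helper42.CV.MDefs
import Pool.Agent.Helper6.TRI.SDefs

/-!
# CV, block M2: the coefficients of the moving forms are slow
-/

set_option autoImplicit false

namespace Pool.Agent.CV

open Module MvPolynomial NumberField Filter Pool.Agent.TRI
open Pool.Agent.Helper64.Vojta (Pl nv sn above)
open Pool.Agent.Chart (fld dg crd hgt val lam)

universe u

/-- the height of a coordinate of a vector with a coordinate `1` -/
theorem lh1_le_64 {k : Type u} [Field k] [NumberField k] {ι : Type} [Finite ι] (b : ι → k) (j : ι) (hj : b j = 1) (i : ι) :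
    Height.logHeight₁ (b i) ≤ Height.logHeight b := by
  rw [Height.logHeight₁_eq_logHeight]
  have h6 : ![b i, 1] = b ∘ ![i, j] := by
    funext c
    fin_cases c
    · rfl
    · exact hj.symm
  rw [h6]
  exact Height.logHeight_comp_le _ _

theorem slow_coef {k : Type u} [Field k] [NumberField k] {N : ℕ} (x : ℕ → Fin N → AlgebraicClosure k) {ι : Type} [Finite ι]
    (b : ℕ → ι → k) (hb : ∀ η : ℝ, 0 < η → ∀ᶠ a in (hyperfilter ℕ : Filter ℕ), Height.logHeight (b a) ≤ η * hgt (x a))
    (h1 : ∀ a, b a = 0 ∨ ∃ i, b a i = 1) (i : ι) : SlowS x fun a => b a i := by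
  intro η hη
  filter_upwards [hb η hη] with a ha
  refine le_trans ?_ ha
  rcases h1 a with h | ⟨j, hj⟩
  · rw [h]
    simp only [Pi.zero_apply]
    rw [Height.logHeight₁_zero]
    exact Height.logHeight_nonneg _
  · exact lh1_le_64 (b a) j hj i

end Pool.Agent.CV
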